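import Pool.Agent.H50.ODG.Targets

/-!
# FX3: Lorentz maps which fix three independent points of hyperbolic space
-/

set_option autoImplicit false

namespace Pool.Agent.H53.ODG

open Pool.Agent.H57.CP Pool.Agent.H39.TO Pool.Agent.H39.OD Pool.Agent.H50.ODG

lemma mk_add_left (u v w : V4) : mk (u + v) w = mk u w + mk v w := by
  simp [mk]; ring

lemma mk_smul_left (c : ℝ) (u w : V4) : mk (c • u) w = c * mk u w := by
  simp [mk]; ring

lemma mk_comm' (u w : V4) : mk u w = mk w u := by
  simp only [mk]; ring

lemma mk_add_right (u v w : V4) : mk w (u + v) = mk w u + mk w v := by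
  simp [mk]; ring

lemma mk_smul_right (c : ℝ) (u w : V4) : mk w (c • u) = c * mk w u := by
  simp [mk]; ring

lemma refl_ap (a x : V4) (i : Fin 4) :
    Pool.Agent.H57.CP.refl a x i = x i + 2 * mk a x * a i := rfl

lemma neg_of_orth (n : V4) (x : H3) (hn : n ≠ 0) (h : mk n x.1 = 0) : mk n n < 0 := by
  obtain ⟨x, hx, hx3⟩ := x
  simp only at h
  simp only [mk] at h hx ⊢
  set N := n 0 ^ 2 + n 1 ^ 2 + n 2 ^ 2 with hN
  have hCS : (n 3 * x 3) ^ 2 ≤ (x 3 ^ 2 - 1) * N := by
    have e1 : n 3 * x 3 = n 0 * x 0 + n 1 * x 1 + n 2 * x 2 := by linarith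
    have e2 : x 3 ^ 2 - 1 = x 0 ^ 2 + x 1 ^ 2 + x 2 ^ 2 := by nlinarith
    rw [e1, e2, hN]
    nlinarith [sq_nonneg (n 0 * x 1 - n 1 * x 0), sq_nonneg (n 0 * x 2 - n 2 * x 0),
      sq_nonneg (n 1 * x 2 - n 2 * x 1)]
  have hN0 : 0 < N := by
    rcases lt_or_eq_of_le (show 0 ≤ N by positivity) with h0 | h0
    · exact h0
    · exfalso
      have a0 : n 0 = 0 := by nlinarith [sq_nonneg (n 0), sq_nonneg (n 1), sq_nonneg (n 2)]
      have a1 : n 1 = 0 := by nlinarith [sq_nonneg (n 0), sq_nonneg (n 1), sq_nonneg (n 2)]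
      have a2 : n 2 = 0 := by nlinarith [sq_nonneg (n 0), sq_nonneg (n 1), sq_nonneg (n 2)]
      rw [a0, a1, a2] at h
      have a3 : n 3 = 0 := by
        have : n 3 * x 3 = 0 := by linarith
        exact (mul_eq_zero.1 this).resolve_right hx3.ne'
      apply hn
      funext i
      fin_cases i <;> simp [a0, a1, a2, a3]
  have h5 : n 3 ^ 2 * x 3 ^ 2 < N * x 3 ^ 2 := by nlinarith
  have h6 : n 3 ^ 2 < N := lt_of_mul_lt_mul_right h5 (sq_nonneg _)
  nlinarith

theorem pf_FX3 (_hLOR : T_LOR) : T_FX3 := by
  intro G x y z hG hx hy hz hli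
  -- a vector orthogonal to the three points
  let φ : V4 →ₗ[ℝ] (Fin 3 → ℝ) :=
    { toFun := fun v => ![mk v x.1, mk v y.1, mk v z.1]
      map_add' := by
        intro u v
        simp only [mk_add_left]
        funext i
        fin_cases i <;> simp
      map_smul' := by
        intro c v
        simp only [mk_smul_left]
        funext i
        fin_cases i <;> simp }
  have hker : LinearMap.ker φ ≠ ⊥ := by
    apply LinearMap.ker_ne_bot_of_finrank_lt
    simp
  obtain ⟨n₀, hn₀, hn₀'⟩ := Submodule.exists_mem_ne_zero_of_ne_bot hker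
  have hφ : φ n₀ = 0 := hn₀
  have e0 : mk n₀ x.1 = 0 := by simpa [φ] using congrFun hφ 0
  have e1 : mk n₀ y.1 = 0 := by simpa [φ] using congrFun hφ 1
  have e2 : mk n₀ z.1 = 0 := by simpa [φ] using congrFun hφ 2
  have hneg : mk n₀ n₀ < 0 := neg_of_orth n₀ x hn₀' e0
  set r : ℝ := Real.sqrt (-mk n₀ n₀) with hr
  have hr0 : 0 < r := Real.sqrt_pos.2 (by linarith)
  have hr2 : r * r = -mk n₀ n₀ := Real.mul_self_sqrt (by linarith)
  set n : V4 := r⁻¹ • n₀ with hn
  have nx : mk n x.1 = 0 := by rw [hn, mk_smul_left, e0, mul_zero]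
  have ny : mk n y.1 = 0 := by rw [hn, mk_smul_left, e1, mul_zero]
  have nz : mk n z.1 = 0 := by rw [hn, mk_smul_left, e2, mul_zero]
  have nn : mk n n = -1 := by
    rw [hn, mk_smul_left, mk_smul_right]
    have : mk n₀ n₀ = -(r * r) := by rw [hr2, neg_neg]
    rw [this]
    field_simp
  -- the four vectors are independent
  have hli4 : LinearIndependent ℝ ![x.1, y.1, z.1, n] := by
    rw [Fintype.linearIndependent_iff]
    intro g hg
    simp only [Fin.sum_univ_four, Matrix.cons_val_zero, Matrix.cons_val_one, Matrix.cons_val] at hg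
    have h3 : g 3 = 0 := by
      have := congrArg (fun v => mk n v) hg
      simp only [mk_add_right, mk_smul_right, nx, ny, nz, nn] at this
      have h00 : mk n 0 = 0 := by simp [mk]
      rw [h00] at this
      linarith
    rw [h3, zero_smul, add_zero] at hg
    rw [Fintype.linearIndependent_iff] at hli
    have h012 := hli ![g 0, g 1, g 2] (by
      simp only [Fin.sum_univ_three, Matrix.cons_val_zero, Matrix.cons_val_one, Matrix.cons_val]
      exact hg)
    intro i
    fin_cases i
    · exact h012 0
    · exact h012 1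
    · exact h012 2
    · exact h3
  let b : Module.Basis (Fin 4) ℝ V4 := basisOfLinearIndependentOfCardEqFinrank hli4 (by simp)
  have hb : ∀ i, b i = ![x.1, y.1, z.1, n] i := fun i => by
    simp [b, coe_basisOfLinearIndependentOfCardEqFinrank]
  have hb0 : b 0 = x.1 := hb 0
  have hb1 : b 1 = y.1 := hb 1
  have hb2 : b 2 = z.1 := hb 2
  have hb3 : b 3 = n := hb 3
  -- the image of `n`
  obtain ⟨s, hs⟩ : ∃ s : ℝ, G n = s • n := by
    have hsum := b.sum_repr (G n)
    rw [Fin.sum_univ_four, hb0, hb1, hb2, hb3] at hsum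
    set a0 := b.repr (G n) 0
    set a1 := b.repr (G n) 1
    set a2 := b.repr (G n) 2
    set a3 := b.repr (G n) 3
    refine ⟨a3, ?_⟩
    by_contra hne
    have hw : a0 • x.1 + a1 • y.1 + a2 • z.1 ≠ 0 := by
      intro h0
      apply hne
      rw [← hsum, h0, zero_add]
    have g1 : mk (G n) x.1 = 0 := by
      have := hG.1 n x.1
      rw [hx] at this
      rw [this, nx]
    have g2 : mk (G n) y.1 = 0 := by
      have := hG.1 n y.1
      rw [hy] at this
      rw [this, ny]
    have g3 : mk (G n) z.1 = 0 := by
      have := hG.1 n z.1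
      rw [hz] at this
      rw [this, nz]
    rw [← hsum, mk_add_left, mk_smul_left a3, nx, mul_zero, add_zero] at g1
    rw [← hsum, mk_add_left, mk_smul_left a3, ny, mul_zero, add_zero] at g2
    rw [← hsum, mk_add_left, mk_smul_left a3, nz, mul_zero, add_zero] at g3
    have hneg' := neg_of_orth _ x hw g1
    rw [mk_add_right, mk_add_right, mk_smul_right, mk_smul_right, mk_smul_right, g1, g2, g3] at hneg'
    simp at hneg'
  have hs2 : s * s = 1 := by
    have := hG.1 n n
    rw [hs, mk_smul_left, mk_smul_right, nn] at this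
    linarith
  rcases mul_self_eq_one_iff.1 hs2 with h1 | h1
  · left
    have hGid : G = LinearMap.id := by
      apply b.ext
      intro i
      fin_cases i
      · simpa [hb0] using hx
      · simpa [hb1] using hy
      · simpa [hb2] using hz
      · simpa [hb3, h1] using hs
    intro v
    rw [hGid]
    rfl
  · right
    refine ⟨n, nn, ?_, ?_⟩
    · rw [← LinearMap.det_toMatrix b G]
      have hM : LinearMap.toMatrix b b G = Matrix.diagonal ![1, 1, 1, -1] := by
        ext i j
        rw [LinearMap.toMatrix_apply]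
        have hGb : G (b j) = (![1, 1, 1, -1] : Fin 4 → ℝ) j • b j := by
          fin_cases j
          · simpa [hb0] using hx
          · simpa [hb1] using hy
          · simpa [hb2] using hz
          · simpa [hb3, h1] using hs
        rw [hGb, map_smul, Module.Basis.repr_self, Finsupp.smul_apply, Finsupp.single_apply,
          Matrix.diagonal_apply]
        by_cases hij : i = j
        · subst hij
          simp
        · rw [if_neg (fun h => hij h.symm), if_neg hij, smul_zero]
      rw [hM, Matrix.det_diagonal, Fin.prod_univ_four]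
      simp
    · have hGr : G = Pool.Agent.H57.CP.refl n := by
        apply b.ext
        intro i
        fin_cases i
        · simp only [Fin.zero_eta, hb0, hx]
          funext j
          rw [refl_ap, nx]; ring
        · simp only [Fin.mk_one, hb1, hy]
          funext j
          rw [refl_ap, ny]; ring
        · simp only [Fin.reduceFinMk, hb2, hz]
          funext j
          rw [refl_ap, nz]; ring
        · simp only [Fin.reduceFinMk, hb3, hs, h1]
          funext j
          rw [refl_ap, nn]
          simp
          ring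
      intro v
      rw [hGr]

end Pool.Agent.H53.ODG
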